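import Mathlib

namespace Pool.Agent.Results.MP_d5c8f2_an.RankOne

open Filter Topology

section
variable {H : Type} [NormedAddCommGroup H] [InnerProductSpace ℂ H]

/-- `T` is the time-one map of a `C₀`-semigroup. -/
def Embeddable (T : H →L[ℂ] H) : Prop :=
  ∃ S : ℝ → H →L[ℂ] H, S 0 = 1 ∧ (∀ s t, 0 ≤ s → 0 ≤ t → S (t + s) = S t * S s) ∧
    (∀ x, ContinuousOn (fun t => S t x) (Set.Ici 0)) ∧ S 1 = T

def IsPartialIsometry (T : H →L[ℂ] H) : Prop :=
  ∀ x ∈ (LinearMap.ker (T : H →ₗ[ℂ] H))ᗮ, ‖T x‖ = ‖x‖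

/-- kernel and orthogonal complement of the range are both infinite-dimensional. -/
def BothInfinite (T : H →L[ℂ] H) : Prop :=
  ¬ FiniteDimensional ℂ (LinearMap.ker (T : H →ₗ[ℂ] H)) ∧
    ¬ FiniteDimensional ℂ (LinearMap.range (T : H →ₗ[ℂ] H))ᗮ
end

noncomputable abbrev H := lp (fun _ : ℕ => ℂ) 2

noncomputable def e (i : ℕ) : H := lp.single 2 i 1

lemma ee (i j : ℕ) : inner ℂ (e i) (e j) = if i = j then 1 else 0 := by
  simp [e, lp.inner_single_left, lp.single_apply, Pi.single_apply]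

lemma on : Orthonormal ℂ e := orthonormal_iff_ite.2 ee

lemma inf (W : Submodule ℂ H) (h : ∀ i, e (i + 2) ∈ W) : ¬ FiniteDimensional ℂ W := by
  intro _
  have h1 : LinearIndependent ℂ fun i : ℕ => (⟨e (i + 2), h i⟩ : W) :=
    LinearIndependent.of_comp W.subtype
      (on.linearIndependent.comp (fun i => i + 2) (add_left_injective 2))
  exact Module.Finite.not_linearIndependent_of_infinite _ h1

theorem result : ∃ (K : Type) (_ : NormedAddCommGroup K) (_ : InnerProductSpace ℂ K)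
    (_ : CompleteSpace K) (T : K →L[ℂ] K),
    IsPartialIsometry T ∧ BothInfinite T ∧ ¬ Embeddable T := by
  obtain ⟨T, hT⟩ : ∃ T : H →L[ℂ] H, ∀ x, T x = inner ℂ (e 1) x • e 0 :=
    ⟨(innerSL ℂ (e 1)).smulRight (e 0), fun x => rfl⟩
  refine ⟨H, inferInstance, inferInstance, inferInstance, T, fun x hx => ?_,
    ⟨inf _ fun i => ?_, inf _ fun i => ?_⟩, ?_⟩
  · have h1 : x - inner ℂ (e 1) x • e 1 ∈ LinearMap.ker (T : H →ₗ[ℂ] H) := by
      simp [hT, inner_sub_right, inner_smul_right, on.1 1]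
    have h2 : x - inner ℂ (e 1) x • e 1 ∈ (LinearMap.ker (T : H →ₗ[ℂ] H))ᗮ := by
      refine Submodule.sub_mem _ hx (Submodule.smul_mem _ _ fun y hy => ?_)
      have : inner ℂ (e 1) y • e 0 = 0 := by rw [← hT]; exact hy
      rw [← inner_conj_symm, (smul_eq_zero.1 this).resolve_right (on.ne_zero 0), map_zero]
    have h3 := sub_eq_zero.1 (inner_self_eq_zero.1 (h2 _ h1))
    rw [hT]
    conv_rhs => rw [h3]
    rw [norm_smul, norm_smul, on.1, on.1]
  · simp [hT, ee]
  · rintro _ ⟨y, rfl⟩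
    simp [hT, inner_smul_left, ee]
  · rintro ⟨S, h0, hS, hc, h1⟩
    have he : T (e 1) = e 0 := by simp [hT, on.1 1]
    have hz : ∀ n : ℕ, S (1 / (n + 1)) (e 0) = 0 := by
      intro n
      have hn : (0 : ℝ) < 1 / (n + 1) := by positivity
      obtain ⟨c, hc⟩ : ∃ c : ℂ, S (1 / (n + 1)) (e 0) = c • e 0 := by
        refine ⟨_, Eq.trans ?_ (hT (S (1 / (n + 1)) (e 1)))⟩
        rw [← he, ← h1, ← ContinuousLinearMap.mul_apply, ← ContinuousLinearMap.mul_apply,
          ← hS _ _ zero_le_one hn.le, ← hS _ _ hn.le zero_le_one, add_comm]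
      have hk : ∀ k : ℕ, S (k * (1 / (n + 1))) (e 0) = c ^ k • e 0 := by
        intro k
        induction k with
        | zero => simp [h0]
        | succ k ih =>
          rw [Nat.cast_succ, add_mul, one_mul, hS _ _ hn.le (by positivity),
            ContinuousLinearMap.mul_apply, hc, map_smul, ih, smul_smul, pow_succ']
      have := hk (n + 1)
      rw [Nat.cast_succ, mul_one_div_cancel (by positivity), h1, hT, ee] at this
      simp only [one_ne_zero, if_false, zero_smul] at this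
      rw [hc, pow_eq_zero_iff (Nat.succ_ne_zero n) |>.1
        ((smul_eq_zero.1 this.symm).resolve_right (on.ne_zero 0)), zero_smul]
    have ht : Tendsto (fun n : ℕ => S (1 / (n + 1)) (e 0)) atTop (𝓝 (S 0 (e 0))) :=
      (hc (e 0) 0 Set.self_mem_Ici).tendsto.comp (tendsto_nhdsWithin_iff.2
        ⟨tendsto_one_div_add_atTop_nhds_zero_nat, .of_forall fun n => by
          show (0 : ℝ) ≤ _; positivity⟩)
    simp only [hz, h0, ContinuousLinearMap.one_apply] at ht
    exact on.ne_zero 0 (tendsto_nhds_unique ht tendsto_const_nhds)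

end Pool.Agent.Results.MP_d5c8f2_an.RankOne
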